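import Pool.Agent.Lib.MP_275d83_lc.Det.Asym

namespace Pool.Agent.Results.MP_275d83_lc.Deterministic

open Filter Pool.Agent.Lib.MP_275d83_lc

/-- A language accepted by a real-time deterministic pushdown automaton whose rational index has
intermediate growth, of order `exp Θ((log n) ^ 2)`. -/
theorem result : ∃ (X : Type) (_ : Fintype X) (M : DPDA X),
    M.lang.IsContextFree ∧ Intermediate (index M.lang) ∧
      ∃ a b : ℝ, 0 < a ∧ ∀ᶠ n : ℕ in atTop,
        Real.exp (a * Real.log n ^ 2) ≤ index M.lang n ∧
          index M.lang n ≤ Real.exp (b * Real.log n ^ 2) :=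
  ⟨Det.Al, inferInstance, Det.DM, Det.DM.isContextFree Det.dl_len,
    Det.intermediate_of (by norm_num) (by norm_num) Det.bounds, _, _, by norm_num, Det.bounds⟩

end Pool.Agent.Results.MP_275d83_lc.Deterministic
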