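import Pool.Agent.Lib.MP_275d83_lc.Hist
import Pool.Agent.Lib.MP_275d83_lc.Comp
import Pool.Agent.Lib.MP_275d83_lc.Growth
import Pool.Agent.Lib.MP_275d83_lc.Mach
import Pool.Agent.Lib.MP_275d83_lc.Track

namespace Pool.Agent.Results.MP_275d83_lc.ExponentSpectrum

open Filter Pool.Agent.Lib.MP_275d83_lc

/-- The pairs (lower, upper) growth exponent of intermediate rational indices of context-free
languages are exactly the pairs (lower, upper) limit of computable sequences of rationals in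
the unit interval. -/
theorem result (α β : ℝ) :
    (∃ (X : Type) (_ : Fintype X) (L : Language X), L.IsContextFree ∧ Intermediate (index L) ∧
      liminf (expo (index L)) atTop = α ∧ limsup (expo (index L)) atTop = β) ↔
    ∃ p q : ℕ → ℕ, Computable p ∧ Computable q ∧ (∀ s, p s ≤ q s ∧ 0 < q s) ∧
      liminf (fun s => (p s : ℝ) / (q s : ℝ)) atTop = α ∧
      limsup (fun s => (p s : ℝ) / (q s : ℝ)) atTop = β := by
  constructor
  · rintro ⟨X, _, L, h1, h2, rfl, rfl⟩
    exact conv _ (computable_index h1) (index_mono L) h2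
  · rintro ⟨p, q, hp, hq, hpq, rfl, rfl⟩
    obtain ⟨FP, FZ, FM, hP, hZ, hM, hZ0, hdel⟩ := track_delay p q hp hq hpq
    have hV : Primrec₂ fun a b => (b + 1) * (b + (FP a b + 1) + FZ a b) :=
      Primrec.nat_mul.comp (Primrec.succ.comp Primrec.snd)
        (Primrec.nat_add.comp (Primrec.nat_add.comp Primrec.snd (Primrec.succ.comp hP)) hZ)
    obtain ⟨ι, _, x, i₀, i₁, D, T, m, hA, hb, h₀, h₁, hD0, hstep, hT, hm, hpat⟩ :=
      exists_run FP FZ FM _ hP hZ hM hV
    obtain ⟨X, hX, L, c, hL, lo, up⟩ := exists_lang x i₀ i₁ hA hb h₀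
    simp only [h₁] at lo up
    obtain ⟨e1, e2, e3, e4⟩ := track_phases D T (fun s => FP (m s) (T s) + 1)
      (fun s => FZ (m s) (T s)) hD0 hstep (fun s => Nat.succ_pos _) (fun s => hZ0 _ _)
      (fun s => lt_of_le_of_lt (Nat.le_add_left _ _) (hT s)) hpat
    obtain ⟨e5, e6, e7⟩ := growth (index L) D c hD0 hstep e1 e2 lo up
    obtain ⟨e8, e9⟩ := hdel T m
      (strictMono_nat_of_lt_succ fun s => lt_of_le_of_lt (Nat.le_add_right _ _) (hT s)) hm
    exact ⟨X, hX, L, hL, e5, e6.trans (e3.trans e8), e7.trans (e4.trans e9)⟩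

end Pool.Agent.Results.MP_275d83_lc.ExponentSpectrum
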