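import Pool.Agent.Lib.MP_275d83_lc.Hist
import Pool.Agent.Lib.MP_275d83_lc.Comp
import Pool.Agent.Lib.MP_275d83_lc.Growth
import Pool.Agent.Lib.MP_275d83_lc.Mach
import Pool.Agent.Lib.MP_275d83_lc.Trans
import Pool.Agent.Lib.MP_275d83_lc.Diag

namespace Pool.Agent.Results.MP_275d83_lc.NonPrincipal

open Filter Pool.Agent.Lib.MP_275d83_lc

/-- No context-free language of subexponential rational index has all context-free languages of
intermediate rational index among its images under rational transductions. -/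
theorem result {X : Type} [Fintype X] (L : Language X) (hL : L.IsContextFree)
    (hs : ∀ c : ℝ, 1 < c → ∀ᶠ n : ℕ in atTop, (index L n : ℝ) < c ^ n) :
    ∃ (Y : Type) (_ : Fintype Y) (L' : Language Y), L'.IsContextFree ∧ Intermediate (index L') ∧
      ∀ (m : ℕ) (T : NFA (Option X × Option Y) (Fin m)), transduce T L ≠ L' := by
  obtain ⟨W, hW, hWs⟩ := diag_wait (index L) (computable_index hL) hs
  obtain ⟨FZ, FM, hZ, hM, hdiag⟩ := track_diag W hW
  obtain ⟨ι, _, x, i₀, i₁, D, T, m, hA, hb, h₀, h₁, hD0, hstep, hT, hm, hpat⟩ :=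
    exists_run (fun _ _ => 0) FZ FM (fun _ _ => 1) (Primrec.const 0) hZ hM (Primrec.const 1)
  obtain ⟨Y, hY, L', c, hL', lo, up⟩ := exists_lang x i₀ i₁ hA hb h₀
  simp only [h₁] at lo up
  obtain ⟨e1, e2, e3⟩ := hdiag D T m hD0 hstep hT hm hpat
  refine ⟨Y, hY, L', hL', (growth (index L') D c hD0 hstep e1 e2 lo up).1, fun q A hA => ?_⟩
  obtain ⟨k, b, hk, hkb⟩ := e3 (q + c)
  have h1 := hWs k b
  generalize W k b = w at hkb h1
  have h2 := lo (b + w + 1) _ le_rfl
  have h3 := index_transduce A L (c * 2 ^ (b + w + 1))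
  rw [hA] at h3
  have h4 : q * (c * 2 ^ (b + w + 1)) ≤ (k + 1) * (k + 1) * 2 ^ (b + 1) * 2 ^ w := by
    rw [mul_assoc ((k + 1) * (k + 1)), ← pow_add, ← mul_assoc,
      show b + 1 + w = b + w + 1 by omega]
    exact Nat.mul_le_mul_right _ (Nat.mul_le_mul (by omega) (by omega))
  have h5 := Nat.mul_le_mul (Nat.succ_le_succ h4) (Nat.succ_le_succ (index_mono L h4))
  have h6 : 2 ^ 2 ^ w ≤ 2 ^ ∑ j ∈ Finset.range (b + w + 1), 2 ^ D j := by
    refine Nat.pow_le_pow_right two_pos ?_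
    rw [Finset.sum_range_succ]
    exact (Nat.pow_le_pow_right two_pos hkb).trans (Nat.le_add_left _ _)
  exact absurd (h6.trans (h2.trans (h3.trans h5))) (not_le.2 h1)

end Pool.Agent.Results.MP_275d83_lc.NonPrincipal
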