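import Pool.Agent.Lib.MP_275d83_lc.Comp
import Pool.Agent.Lib.MP_275d83_lc.Trans
import Pool.Agent.FS.SlowIndex.Main

namespace Pool.Agent.Results.MP_275d83_lc.SlowIndex

open Filter Pool.Agent.Lib.MP_275d83_lc Pool.Agent.FS.SlowIndex

/-- The bottom of the intermediate range: for monotone `h`, some context-free language has an
intermediate rational index below `n ^ h n` if and only if `h` has a computable monotone
unbounded minorant. -/
theorem result (h : ℕ → ℕ) (hm : Monotone h) :
    (∃ (X : Type) (_ : Fintype X) (L : Language X), L.IsContextFree ∧ Intermediate (index L) ∧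
      ∀ᶠ n : ℕ in atTop, index L n ≤ n ^ h n) ↔
    ∃ g : ℕ → ℕ, Computable g ∧ Monotone g ∧ (∀ K, ∃ n, K ≤ g n) ∧ ∀ n, g n ≤ h n := by
  constructor
  · rintro ⟨X, _, L, hL, hI, hev⟩
    exact exists_order (index L) h (computable_index hL) hm hI.1 hev
  · rintro ⟨g, hg, hgm, hgu, hgh⟩
    obtain ⟨X, hX, L, hL, hI, hev⟩ := exists_slow g hg hgm hgu
    refine ⟨X, hX, L, hL, hI, ?_⟩
    filter_upwards [hev, eventually_ge_atTop 1] with n e1 e2
    exact e1.trans (Nat.pow_le_pow_right e2 (hgh n))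

/-- Consequence: no context-free language of superpolynomial index is a rational image of all
context-free languages of intermediate index. -/
theorem no_least {X : Type} [Fintype X] (L : Language X) (hL : L.IsContextFree)
    (hs : ∀ k : ℕ, ¬ Asymptotics.IsBigO atTop (fun n : ℕ => (index L n : ℝ))
      fun n : ℕ => (n : ℝ) ^ k) :
    ∃ (Y : Type) (_ : Fintype Y) (L' : Language Y), L'.IsContextFree ∧ Intermediate (index L') ∧
      ∀ (m : ℕ) (T : NFA (Option Y × Option X) (Fin m)), transduce T L' ≠ L := by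
  obtain ⟨N, hN, hNs⟩ := exists_gap (index L) (computable_index hL) hs
  obtain ⟨h, hc, hm, hu, hk, -⟩ := exists_inverse (fun k => k * N k)
    (Primrec.nat_mul.to_comp.comp Computable.id hN) fun k =>
      Nat.le_mul_of_pos_right _ (by have := (hNs k).1; omega)
  obtain ⟨Y, hY, L', hL', hI, hev⟩ := exists_slow h hc hm hu
  refine ⟨Y, hY, L', hL', hI, fun m T hT => ?_⟩
  obtain ⟨n₁, hn₁⟩ := eventually_atTop.1 hev
  obtain ⟨k, hk1, hk2, hk3⟩ : ∃ k, m ≤ k ∧ n₁ ≤ k ∧ 1 ≤ k := ⟨m + n₁ + 1, by omega⟩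
  obtain ⟨e1, e2⟩ := hNs k
  have e3 := index_transduce T L' (N k)
  rw [hT] at e3
  have e4 : m * N k ≤ k * N k := Nat.mul_le_mul_right _ hk1
  have e5 : k ≤ k * N k := Nat.le_mul_of_pos_right _ (by omega)
  have e6 := (index_mono L' e4).trans ((hn₁ _ (hk2.trans e5)).trans
    (Nat.pow_le_pow_right (by omega) (hk k)))
  exact absurd (e3.trans (Nat.mul_le_mul (Nat.succ_le_succ e4) (Nat.succ_le_succ e6)))
    (not_le.2 e2)

end Pool.Agent.Results.MP_275d83_lc.SlowIndex
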